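import Mathlib
import Pool.Agent.H.MP_58b66c_an.C

namespace Pool.Agent.Results.MP_58b66c_an.Range

open Filter Topology

theorem result (C : ℝ) (hC : 0 < C) (hC' : 1859 * C ^ 2 < 600) :
    ∃ (f : ℂ → ℂ) (a : ℕ → ℂ) (m M : ℝ → ℝ), Differentiable ℂ f ∧
      (∀ z, HasSum (fun n => a n * z ^ n) (f z)) ∧ {n | a n ≠ 0}.Infinite ∧
      (∀ r, 0 < r → IsLUB (Set.range fun n => ‖a n‖ * r ^ n) (m r)) ∧
      (∀ r, 0 < r → IsLUB ((fun z => ‖f z‖) '' Metric.sphere 0 r) (M r)) ∧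
      Tendsto (fun r => m r / M r) atTop (𝓝 C) :=
  Pool.Agent.H.MP_58b66c_an.exists_entire C hC hC'

end Pool.Agent.Results.MP_58b66c_an.Range
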